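import Mathlib
import Pool.Agent.H10.Split

/-!
# Functorial exchange-ring liftings of simplicial monoids along embeddings

There is a functor `Ψ` from the category `𝒮` of simplicial monoids with order-unit and normalized
embeddings to the category of exchange rings with `V ∘ Ψ ≅ id`.
-/

namespace FXL.Old

open CategoryTheory Pool.Agent.H10

/-- Every object of `𝒮` is isomorphic to an object of the skeleton. -/
theorem exists_iso (M : SimpMon) : ∃ X : Sk, Nonempty (M ≅ X.ob) := by
  obtain ⟨n, ⟨e⟩⟩ := M.simplicial
  let X : Sk :=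
    { n := n
      u := e M.unit
      pos := by
        intro i
        obtain ⟨y, k, h⟩ := M.isOrderUnit (e.symm (Pi.single i 1))
        have h1 := congrFun (congrArg e h) i
        rw [map_add, AddEquiv.apply_symm_apply, map_nsmul, Pi.add_apply, Pi.single_eq_same,
          Pi.smul_apply, smul_eq_mul] at h1
        by_contra hcon
        have h2 : e M.unit i = 0 := by omega
        rw [h2, mul_zero] at h1
        omega }
  let f : M ⟶ X.ob := ⟨(e : M.carrier →+ (Fin n → ℕ)), e.injective, rfl⟩
  let g : X.ob ⟶ M := ⟨(e.symm : (Fin n → ℕ) →+ M.carrier), e.symm.injective,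
    e.symm_apply_apply M.unit⟩
  refine ⟨X, ⟨⟨f, g, ?_, ?_⟩⟩⟩
  · apply SimpMon.Hom.ext
    apply AddMonoidHom.ext
    intro x
    exact e.symm_apply_apply x
  · apply SimpMon.Hom.ext
    apply AddMonoidHom.ext
    intro x
    exact e.apply_symm_apply x

/-- A chosen object of the skeleton isomorphic to `M`. -/
noncomputable def skel (M : SimpMon) : Sk := (exists_iso M).choose

/-- A chosen isomorphism of `M` with an object of the skeleton. -/
noncomputable def sig (M : SimpMon) : M ≅ (skel M).ob := (exists_iso M).choose_spec.some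

variable (P : PlaceSystem)

/-- The functor `Ψ`. -/
noncomputable def Psi : SimpMon ⥤ ExchRng where
  obj M := ⟨Q P M, exchange_of_clean fun y => Q_clean P (sig M) y⟩
  map k := (Qmap P k).toNonUnitalRingHom
  map_id M := by
    apply NonUnitalRingHom.ext
    intro y
    apply Q_ext
    intro X g
    show comp P (𝟙 M ≫ g) y = comp P g y
    rw [Category.id_comp]
  map_comp k l := by
    apply NonUnitalRingHom.ext
    intro y
    apply Q_ext
    intro X g
    show comp P ((k ≫ l) ≫ g) y = comp P (k ≫ (l ≫ g)) y
    rw [Category.assoc]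

/-- The isomorphism `(Fin n → ℕ) ≃+ M` attached to an isomorphism with an object of the skeleton. -/
def isoEquiv {M : SimpMon} {X : Sk} (σ : M ≅ X.ob) : (Fin X.n → ℕ) ≃+ M.carrier where
  toFun := SimpMon.Hom.toHom σ.inv
  invFun := SimpMon.Hom.toHom σ.hom
  left_inv x := DFunLike.congr_fun (congrArg SimpMon.Hom.toHom σ.inv_hom_id) x
  right_inv x := DFunLike.congr_fun (congrArg SimpMon.Hom.toHom σ.hom_inv_id) x
  map_add' x y := map_add (SimpMon.Hom.toHom σ.inv) x y

/-- The isomorphism `V(Q(M)) ≃+ M`. -/
noncomputable def theta (M : SimpMon) : V (Q P M) ≃+ M.carrier :=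
  (AddEquiv.ofBijective (rk P (sig M).hom) (rk_bijective P (sig M))).trans (isoEquiv (sig M))

theorem theta_mk (M : SimpMon) (e : Idem (Q P M)) :
    theta P M (V.mk e) = SimpMon.Hom.toHom (sig M).inv (rkI P (sig M).hom e) := rfl

theorem rkI_Qmap {M N : SimpMon} (k : M ⟶ N) {X : Sk} (g : N ⟶ X.ob) (e : Idem (Q P M)) :
    rkI P g (V.mapIdem (Qmap P k).toNonUnitalRingHom e) = rkI P (k ≫ g) e := by
  funext j
  rw [rkI_eq_iff, ← rkI_spec]
  rfl

theorem theta_natural {M N : SimpMon} (k : M ⟶ N) (x : V (Q P M)) :
    theta P N (V.map (Qmap P k).toNonUnitalRingHom x) = SimpMon.Hom.toHom k (theta P M x) := by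
  induction x using V.ind with | _ e
  rw [V.map_mk, theta_mk, theta_mk, rkI_Qmap]
  have hg : k ≫ (sig N).hom = (sig M).hom ≫ ((sig M).inv ≫ k ≫ (sig N).hom) := by
    rw [Iso.hom_inv_id_assoc]
  rw [hg, rkI_comp]
  have h1 := DFunLike.congr_fun (congrArg SimpMon.Hom.toHom (sig N).hom_inv_id)
    (SimpMon.Hom.toHom k (SimpMon.Hom.toHom (sig M).inv (rkI P (sig M).hom e)))
  exact h1

/-- **Theorem** (positive answer to Q1). There is a functor `Ψ` from the category of simplicial
monoids with order-unit and normalized embeddings to the category of exchange rings such that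
`V ∘ Ψ` is naturally isomorphic to the inclusion functor into commutative monoids. -/
theorem result : ∃ Ψ : SimpMon ⥤ ExchRng, Nonempty (Ψ ⋙ VFunctor ≅ incl) := by
  refine ⟨Psi Generic.system, ⟨NatIso.ofComponents
    (fun M => AddEquiv.toAddCommMonCatIso (theta Generic.system M)) ?_⟩⟩
  intro M N k
  apply AddCommMonCat.hom_ext
  apply AddMonoidHom.ext
  intro x
  exact theta_natural Generic.system k x

end FXL.Old
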