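import Pool.Agent.H30.FXL.Defs
import Pool.Agent.H30.FXL.Old

/-! From the functor `Ψ` to the elementary form. -/

open CategoryTheory

namespace FXL

open Pool.Agent.H10 (MInf Idem V VFunctor incl)

section

variable {R : Type} [NonUnitalRing R]

/-- The element of `M_∞(R)`. -/
def toM (a : ℕ → ℕ → R) (h : IsFin a) : MInf R := ⟨a, h⟩

theorem toM_mul (a b : ℕ → ℕ → R) (ha : IsFin a) (hb : IsFin b) (i j : ℕ) :
    (toM a ha * toM b hb).entry i j = mmul a b i j := rfl

theorem isFin (a : MInf R) : IsFin a.entry := a.2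

/-- The idempotent. -/
def toI (e : ℕ → ℕ → R) (h : IsIdem e) : Idem R :=
  ⟨toM e h.1, MInf.ext fun i j => congrFun (congrFun h.2 i) j⟩

theorem idem_entry (e : Idem R) : IsIdem e.1.entry :=
  ⟨isFin e.1, funext fun i => funext fun j => congrArg (fun a : MInf R => a.entry i j) e.2⟩

theorem mvn_iff (e f : ℕ → ℕ → R) (he : IsIdem e) (hf : IsIdem f) :
    Pool.Agent.H10.MvN (toI e he) (toI f hf) ↔ MvN e f := by
  constructor
  · rintro ⟨x, y, h1, h2⟩
    refine ⟨x.entry, y.entry, isFin x, isFin y, funext fun i => funext fun j => ?_,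
      funext fun i => funext fun j => ?_⟩
    · exact congrArg (fun a : MInf R => a.entry i j) h1
    · exact congrArg (fun a : MInf R => a.entry i j) h2
  · rintro ⟨x, y, hx, hy, h1, h2⟩
    refine ⟨toM x hx, toM y hy, MInf.ext fun i j => ?_, MInf.ext fun i j => ?_⟩
    · exact congrFun (congrFun h1 i) j
    · exact congrFun (congrFun h2 i) j

end

/-- Objects. -/
def toO (M : SimpMon) : Pool.Agent.H10.SimpMon where
  carrier := M.carrier
  simplicial := M.simplicial
  unit := M.unit
  isOrderUnit := M.isOrderUnit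

/-- Morphisms. -/
def toH {M N : SimpMon} (k : M.carrier → N.carrier) (h : IsMor k) : toO M ⟶ toO N where
  toHom := { toFun := k, map_zero' := h.2.1, map_add' := h.2.2.1 }
  injective := h.1
  map_unit := h.2.2.2

theorem isMor_id (M : SimpMon) : IsMor (M := M) (N := M) id :=
  ⟨Function.injective_id, rfl, fun _ _ => rfl, rfl⟩

theorem isMor_comp {M N P : SimpMon} {k : M.carrier → N.carrier} {l : N.carrier → P.carrier}
    (hk : IsMor k) (hl : IsMor l) : IsMor (M := M) (N := P) (l ∘ k) := by
  refine ⟨hl.1.comp hk.1, ?_, fun x y => ?_, ?_⟩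
  · change l (k 0) = 0
    rw [hk.2.1, hl.2.1]
  · change l (k (x + y)) = _
    rw [hk.2.2.1, hl.2.2.1]
    rfl
  · change l (k M.unit) = _
    rw [hk.2.2.2, hl.2.2.2]

theorem main : ∃ (R : SimpMon → Type) (_ : ∀ M, NonUnitalRing (R M))
    (F : (M N : SimpMon) → (M.carrier → N.carrier) → R M → R N)
    (θ : (M : SimpMon) → (ℕ → ℕ → R M) → M.carrier), IsFunctor R F ∧ IsNatIso R F θ := by
  classical
  obtain ⟨Ψ, ⟨α⟩⟩ := FXL.Old.result
  let A : (M : SimpMon) → (V (Ψ.obj (toO M)).carrier →+ M.carrier) := fun M =>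
    (α.hom.app (toO M)).hom
  have hA : ∀ M, Function.Bijective (A M) := fun M =>
    (ConcreteCategory.bijective_of_isIso (α.hom.app (toO M)))
  let φ : (M N : SimpMon) → (k : M.carrier → N.carrier) → IsMor k →
      ((Ψ.obj (toO M)).carrier →ₙ+* (Ψ.obj (toO N)).carrier) := fun M N k h => Ψ.map (toH k h)
  have hnat : ∀ (M N : SimpMon) (k : M.carrier → N.carrier) (h : IsMor k)
      (x : V (Ψ.obj (toO M)).carrier), A N (V.map (φ M N k h) x) = k (A M x) := by
    intro M N k h x
    have h1 := α.hom.naturality (toH k h)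
    exact congrArg (fun f => f.hom x) h1
  refine ⟨fun M => (Ψ.obj (toO M)).carrier, fun M => (Ψ.obj (toO M)).ring,
    fun M N k => if h : IsMor k then φ M N k h else fun _ => 0,
    fun M e => if h : IsIdem e then A M (V.mk (toI e h)) else 0, ⟨?_, ?_, ?_, ?_⟩, ?_, ?_⟩
  · exact fun M => (Ψ.obj (toO M)).exchange
  · intro M N k h x y
    simp only [dif_pos h]
    exact ⟨map_add (φ M N k h) x y, map_mul (φ M N k h) x y⟩
  · intro M x
    simp only [dif_pos (isMor_id M)]
    have h1 : φ M M id (isMor_id M) = NonUnitalRingHom.id _ := Ψ.map_id (toO M)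
    rw [h1]
    rfl
  · intro M N P k l x hk hl
    simp only [dif_pos hk, dif_pos hl, dif_pos (isMor_comp hk hl)]
    have h1 : φ M P (l ∘ k) (isMor_comp hk hl) = (φ N P l hl).comp (φ M N k hk) :=
      Ψ.map_comp (toH k hk) (toH l hl)
    rw [h1]
    rfl
  · intro M
    refine ⟨?_, ?_, ?_⟩
    · intro e f he hf
      simp only [dif_pos he, dif_pos hf]
      rw [(hA M).1.eq_iff, V.mk_eq, mvn_iff]
    · intro x
      obtain ⟨v, hv⟩ := (hA M).2 x
      induction v using V.ind with | _ e
      refine ⟨e.1.entry, idem_entry e, ?_⟩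
      exact (dif_pos (idem_entry e)).trans hv
    · intro e f he hf h1 h2
      have h1' : (toI e he).1 * (toI f hf).1 = 0 := MInf.ext h1
      have h2' : (toI f hf).1 * (toI e he).1 = 0 := MInf.ext h2
      have h3 := V.mk_add_mk_of_orthogonal' (toI e he) (toI f hf) h1' h2'
      have h4 : IsIdem (fun i j => e i j + f i j) := idem_entry (V.orthoSum _ _ h1' h2')
      refine (dif_pos h4).trans (Eq.trans ?_ (congrArg₂ (· + ·) (dif_pos he).symm (dif_pos hf).symm))
      exact (congrArg (A M) h3.symm).trans (map_add (A M) _ _)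
  · intro M N k e hk he
    have h4 : IsIdem (fun i j => (φ M N k hk) (e i j)) :=
      idem_entry (V.mapIdem (φ M N k hk) (toI e he))
    have h5 := hnat M N k hk (V.mk (toI e he))
    rw [V.map_mk] at h5
    simp only [dif_pos hk, dif_pos he, dif_pos h4]
    exact h5

end FXL
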