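import Mathlib

/-!
Definitions for the statement: simplicial monoids with order-unit, exchange rings, idempotents of
`M_∞(R)` and their Murray-von Neumann equivalence, the isomorphism `V(R) ≅ M`.
-/

namespace FXL

section

variable {M N R S : Type} [AddCommMonoid M] [AddCommMonoid N] [NonUnitalRing R] [NonUnitalRing S]

variable (M) in
/-- `M` is isomorphic to `ℕⁿ` for some `n`. -/
def IsSimplicial : Prop := ∃ n : ℕ, Nonempty (M ≃+ (Fin n → ℕ))

/-- `u` is an order-unit. -/
def IsOrderUnit (u : M) : Prop := ∀ x : M, ∃ (y : M) (n : ℕ), x + y = n • u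

/-- `k` is an embedding (an injective homomorphism) and maps `u` to `v`. -/
def IsEmb (u : M) (v : N) (k : M → N) : Prop :=
  Function.Injective k ∧ k 0 = 0 ∧ (∀ x y, k (x + y) = k x + k y) ∧ k u = v

/-- `f` is a homomorphism of rings. -/
def IsHom (f : R → S) : Prop := ∀ x y, f (x + y) = f x + f y ∧ f (x * y) = f x * f y

variable (R) in
/-- Exchange rings, not necessarily unital (Ara): for every `x` there are an idempotent `e` and
elements `r, s` with `e = x r` and `e = x + s - x s`. -/
def IsExchange : Prop := ∀ x : R, ∃ e r s : R, e * e = e ∧ e = x * r ∧ e = x + s - x * s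

/-- `a` lies in `M_∞(R)`: it has finitely many nonzero entries. -/
def IsFin (a : ℕ → ℕ → R) : Prop := {p : ℕ × ℕ | a p.1 p.2 ≠ 0}.Finite

/-- The product of matrices. -/
noncomputable def mmul (a b : ℕ → ℕ → R) (i j : ℕ) : R := ∑ᶠ k, a i k * b k j

/-- Idempotents of `M_∞(R)`. -/
def IsIdem (e : ℕ → ℕ → R) : Prop := IsFin e ∧ mmul e e = e

/-- Murray-von Neumann equivalence. -/
def MvN (e f : ℕ → ℕ → R) : Prop := ∃ x y, IsFin x ∧ IsFin y ∧ e = mmul x y ∧ f = mmul y x

/-- The function `θ` on the idempotents of `M_∞(R)` induces an isomorphism from `V(R)` onto `M`: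
`θ e = θ f` if and only if `e ~ f`, all values are taken, and `θ (e + f) = θ e + θ f` for orthogonal
idempotents `e` and `f`. -/
structure IsIsoV (θ : (ℕ → ℕ → R) → M) : Prop where
  eq_iff : ∀ e f, IsIdem e → IsIdem f → (θ e = θ f ↔ MvN e f)
  surj : ∀ x : M, ∃ e, IsIdem e ∧ θ e = x
  add : ∀ e f, IsIdem e → IsIdem f → (∀ i j, mmul e f i j = 0) → (∀ i j, mmul f e i j = 0) →
    θ (fun i j => e i j + f i j) = θ e + θ f

end

/-- Simplicial monoids with a distinguished order-unit: the objects of the category `𝒮`. -/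
structure SimpMon : Type 1 where
  carrier : Type
  [monoid : AddCommMonoid carrier]
  unit : carrier
  simplicial : IsSimplicial carrier
  isOrderUnit : IsOrderUnit unit

attribute [instance] SimpMon.monoid

/-- Normalized embeddings: the morphisms of the category `𝒮`. -/
def IsMor {M N : SimpMon} (k : M.carrier → N.carrier) : Prop := IsEmb M.unit N.unit k

/-- `R` and `F` form a functor from `𝒮` to the category of exchange rings. -/
structure IsFunctor (R : SimpMon → Type) [∀ M, NonUnitalRing (R M)]
    (F : (M N : SimpMon) → (M.carrier → N.carrier) → R M → R N) : Prop where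
  exchange : ∀ M, IsExchange (R M)
  hom : ∀ M N k, IsMor k → IsHom (F M N k)
  id : ∀ M x, F M M id x = x
  comp : ∀ M N P k l x, IsMor k → IsMor l → F M P (l ∘ k) x = F N P l (F M N k x)

/-- The `θ M` form a natural isomorphism from `V ∘ R` to the inclusion functor of `𝒮` into commutative
monoids. -/
def IsNatIso (R : SimpMon → Type) [∀ M, NonUnitalRing (R M)]
    (F : (M N : SimpMon) → (M.carrier → N.carrier) → R M → R N)
    (θ : (M : SimpMon) → (ℕ → ℕ → R M) → M.carrier) : Prop :=
  (∀ M, IsIsoV (θ M)) ∧ ∀ M N k e, IsMor k → IsIdem e →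
    θ N (fun i j => F M N k (e i j)) = k (θ M e)

end FXL
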